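import Pool.Agent.Run7.h684.SO.Def

/-!
# Piece LOG (project SO of helper684)
-/

set_option autoImplicit false

open Complex Filter Topology

namespace Run7.h192.SO

open Run7.h684.SO

lemma term_norm (a : ℕ → ℂ) (p : Nat.Primes) (s : ℂ) :
    ‖a p * ((p : ℕ) : ℂ) ^ (-s)‖ = ‖a p‖ * ((p : ℕ) : ℝ) ^ (-s.re) := by
  rw [norm_mul, Complex.norm_natCast_cpow_of_pos p.2.pos]
  simp

lemma sum_primes {a : ℕ → ℂ} {s : ℂ} (h : LSeriesSummable a s) :
    Summable (fun p : Nat.Primes => ‖a p‖ * ((p : ℕ) : ℝ) ^ (-s.re)) := by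
  have h1 := (h.norm).comp_injective Nat.Primes.coe_nat_injective
  refine h1.congr fun p => ?_
  rw [Function.comp_apply, LSeries.norm_term_eq, if_neg p.2.ne_zero,
    Real.rpow_neg (Nat.cast_nonneg _), div_eq_mul_inv]

/-- Piece LOG. -/
theorem t_LOG : S_LOG := by
  intro a b F hF
  have hpart : ∀ δ : ℝ, 0 < δ →
      Summable (fun p : Nat.Primes => ‖a p‖ * ((p : ℕ) : ℝ) ^ (-(1 + δ))) := by
    intro δ hδ
    have h1 := sum_primes (hF.sum ((1 + δ : ℝ) : ℂ) (by rw [ofReal_re]; linarith))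
    rw [ofReal_re] at h1
    exact h1
  refine ⟨hpart, ?_⟩
  obtain ⟨θ, C, hθ, hC, hb⟩ := hF.bnd
  set θ₀ : ℝ := max θ 0 with hθ₀
  have hθ1 : θ₀ < 1 / 2 := max_lt hθ (by norm_num)
  have hθ2 : 0 ≤ θ₀ := le_max_right _ _
  set r : Nat.Primes → ℝ := fun p => ((p : ℕ) : ℝ) ^ (θ₀ - 1) with hr
  set ρ : ℝ := (2 : ℝ) ^ (θ₀ - 1) with hρ
  have hr0 : ∀ p, 0 < r p := fun p => Real.rpow_pos_of_pos (by exact_mod_cast p.2.pos) _
  have hρ1 : ρ < 1 := Real.rpow_lt_one_of_one_lt_of_neg (by norm_num) (by linarith)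
  have hrρ : ∀ p, r p ≤ ρ := by
    intro p
    exact Real.rpow_le_rpow_of_nonpos (by norm_num) (by exact_mod_cast p.2.two_le) (by linarith)
  have hr1 : ∀ p, r p < 1 := fun p => lt_of_le_of_lt (hrρ p) hρ1
  -- the terms
  set u : ℂ → Nat.Primes → ℕ → ℂ := fun s p l =>
    b ((p : ℕ) ^ (l + 1)) * (((p : ℕ) ^ (l + 1) : ℕ) : ℂ) ^ (-s) with hu
  have hub : ∀ s : ℂ, 1 < s.re → ∀ p l, ‖u s p l‖ ≤ C * r p ^ (l + 1) := by
    intro s hs p l
    have hp0 : (0 : ℝ) < ((p : ℕ) : ℝ) := by exact_mod_cast p.2.pos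
    have hp1 : (1 : ℝ) ≤ ((p : ℕ) : ℝ) := by exact_mod_cast p.2.one_le
    have h1 : ‖u s p l‖ = ‖b ((p : ℕ) ^ (l + 1))‖ *
        (((p : ℕ) : ℝ) ^ (l + 1)) ^ (-s.re) := by
      simp only [hu]
      rw [norm_mul, Complex.norm_natCast_cpow_of_pos (pow_pos p.2.pos _)]
      push_cast
      simp
    have h2 : ‖b ((p : ℕ) ^ (l + 1))‖ ≤ C * ((p : ℕ) : ℝ) ^ (((l + 1 : ℕ) : ℝ) * θ₀) := by
      refine (hb p (l + 1) p.2 (by omega)).trans (mul_le_mul_of_nonneg_left ?_ hC)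
      exact Real.rpow_le_rpow_of_exponent_le hp1
        (mul_le_mul_of_nonneg_left (le_max_left _ _) (Nat.cast_nonneg _))
    have h3 : (((p : ℕ) : ℝ) ^ (l + 1)) ^ (-s.re) ≤ ((p : ℕ) : ℝ) ^ (-((l + 1 : ℕ) : ℝ)) := by
      rw [← Real.rpow_natCast, ← Real.rpow_mul hp0.le]
      refine Real.rpow_le_rpow_of_exponent_le hp1 ?_
      have : (0 : ℝ) ≤ ((l + 1 : ℕ) : ℝ) := Nat.cast_nonneg _
      nlinarith
    have h4 : r p ^ (l + 1) = ((p : ℕ) : ℝ) ^ (((l + 1 : ℕ) : ℝ) * θ₀) *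
        ((p : ℕ) : ℝ) ^ (-((l + 1 : ℕ) : ℝ)) := by
      simp only [hr]
      rw [← Real.rpow_natCast, ← Real.rpow_mul hp0.le, ← Real.rpow_add hp0]
      congr 1
      ring
    rw [h1, h4, ← mul_assoc]
    exact mul_le_mul h2 h3 (by positivity) (mul_nonneg hC (Real.rpow_nonneg hp0.le _))
  have hgeo : ∀ p, Summable fun l : ℕ => C * r p ^ (l + 1) := by
    intro p
    have h1 := (summable_geometric_of_lt_one (hr0 p).le (hr1 p)).mul_left (C * r p)
    refine h1.congr fun l => ?_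
    rw [pow_succ]
    ring
  have husum : ∀ s : ℂ, 1 < s.re → ∀ p, Summable (u s p) := fun s hs p =>
    Summable.of_norm_bounded (hgeo p) (hub s hs p)
  set T : ℂ → Nat.Primes → ℂ := fun s p => ∑' l : ℕ, u s p (l + 1) with hT
  set K : ℝ := C / (1 - ρ) with hK
  have hTb : ∀ s : ℂ, 1 < s.re → ∀ p, ‖T s p‖ ≤ K * r p ^ 2 := by
    intro s hs p
    have h1 : HasSum (fun l : ℕ => C * r p ^ 2 * r p ^ l) (C * r p ^ 2 * (1 - r p)⁻¹) :=
      (hasSum_geometric_of_lt_one (hr0 p).le (hr1 p)).mul_left _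
    have h2 : ‖T s p‖ ≤ C * r p ^ 2 * (1 - r p)⁻¹ := by
      refine tsum_of_norm_bounded h1 fun l => ?_
      refine (hub s hs p (l + 1)).trans (le_of_eq ?_)
      ring
    refine h2.trans ?_
    have h3 : (1 - r p)⁻¹ ≤ (1 - ρ)⁻¹ :=
      inv_anti₀ (by linarith) (by linarith [hrρ p])
    have h4 : 0 ≤ C * r p ^ 2 := mul_nonneg hC (sq_nonneg _)
    calc C * r p ^ 2 * (1 - r p)⁻¹ ≤ C * r p ^ 2 * (1 - ρ)⁻¹ := mul_le_mul_of_nonneg_left h3 h4
      _ = K * r p ^ 2 := by rw [hK, div_eq_mul_inv]; ring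
  have hKs : Summable fun p : Nat.Primes => K * r p ^ 2 := by
    refine Summable.mul_left _ ?_
    have h1 : Summable fun p : Nat.Primes => ((p : ℕ) : ℝ) ^ (2 * (θ₀ - 1)) :=
      Nat.Primes.summable_rpow.2 (by linarith)
    refine h1.congr fun p => ?_
    simp only [hr]
    rw [← Real.rpow_natCast, ← Real.rpow_mul (Nat.cast_nonneg _)]
    congr 1
    push_cast
    ring
  refine ⟨∑' p : Nat.Primes, K * r p ^ 2, ?_⟩
  intro δ t hδ
  set s : ℂ := pt δ t with hs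
  have hsre : s.re = 1 + δ := by
    rw [hs]
    simp [pt]
  have hs1 : 1 < s.re := by rw [hsre]; linarith
  have hc : ∀ p : Nat.Primes, ∑' l : ℕ, b ((p : ℕ) ^ (l + 1)) *
      (((p : ℕ) ^ (l + 1) : ℕ) : ℂ) ^ (-s) = a p * ((p : ℕ) : ℂ) ^ (-s) + T s p := by
    intro p
    have h1 := (husum s hs1 p).tsum_eq_zero_add
    have h2 : u s p 0 = a p * ((p : ℕ) : ℂ) ^ (-s) := by
      simp only [hu]
      rw [hF.ab p p.2]
      simp
    rw [h2] at h1
    exact h1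
  have hS1 : Summable fun p : Nat.Primes => a p * ((p : ℕ) : ℂ) ^ (-s) := by
    refine Summable.of_norm ?_
    refine (hpart δ hδ).congr fun p => ?_
    rw [term_norm, hsre]
  have hS2 : Summable fun p : Nat.Primes => T s p := Summable.of_norm_bounded hKs (hTb s hs1)
  have hS3 := hS1.hasSum.add hS2.hasSum
  have hP := hF.prod s hs1
  have hE : F s = Complex.exp ((∑' p : Nat.Primes, a p * ((p : ℕ) : ℂ) ^ (-s)) +
      ∑' p : Nat.Primes, T s p) := by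
    have h1 := hS3.cexp
    have h2 : (fun p : Nat.Primes => Complex.exp (∑' l : ℕ, b ((p : ℕ) ^ (l + 1)) *
        (((p : ℕ) ^ (l + 1) : ℕ) : ℂ) ^ (-s))) =
        (Complex.exp ∘ fun p : Nat.Primes => a p * ((p : ℕ) : ℂ) ^ (-s) + T s p) := by
      funext p
      rw [Function.comp_apply, hc p]
    rw [h2] at hP
    exact hP.unique h1
  refine ⟨by rw [hE]; exact Complex.exp_ne_zero _, ?_⟩
  have hlog : Real.log ‖F s‖ = PS a δ t + ∑' p : Nat.Primes, (T s p).re := by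
    rw [hE, Complex.norm_exp, Real.log_exp, Complex.add_re, Complex.re_tsum hS1,
      Complex.re_tsum hS2]
    rfl
  rw [hlog, add_sub_cancel_left]
  have hre : ∀ p : Nat.Primes, ‖(T s p).re‖ ≤ K * r p ^ 2 := fun p =>
    (Complex.abs_re_le_norm _).trans (hTb s hs1 p)
  exact tsum_of_norm_bounded hKs.hasSum hre

end Run7.h192.SO
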